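import Mathlib

/-!
MP_f8e2d3: oriented paths in oriented graphs of minimum semidegree at least 99k/100.

`N b v`: the out-neighbours (`b = true`) or in-neighbours (`b = false`) of `v`.
A random path: every vertex is chosen uniformly among the unused neighbours of the required kind.
`E as U v g`: expectation of `g` (the set of used vertices) over the random path from `v` with the
arc types `as`, `U` = used vertices.
-/

set_option autoImplicit false

noncomputable section
namespace Pool.Agent.Helper78.OP

open Finset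

variable {V : Type} [DecidableEq V]

/-- there is a path from `v` with the arc types `as`, avoiding `U`; `W`: the used vertices at the
end -/
def Ok (N : Bool → V → Finset V) : List Bool → Finset V → V → Finset V → Prop
  | [], U, _, W => W = U
  | a :: as, U, v, W => ∃ w, w ∈ N a v ∧ w ∉ U ∧ Ok N as (insert w U) w W

/-- expectation over the random path -/
def E (N : Bool → V → Finset V) : List Bool → Finset V → V → (Finset V → ℝ) → ℝ
  | [], U, _, g => g U
  | a :: as, U, v, g =>
    (∑ w ∈ N a v \ U, E N as (insert w U) w g) / ((N a v \ U).card : ℝ)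

theorem E_cons (N : Bool → V → Finset V) (a : Bool) (as : List Bool) (U : Finset V) (v : V)
    (g : Finset V → ℝ) : E N (a :: as) U v g =
      (∑ w ∈ N a v \ U, E N as (insert w U) w g) / ((N a v \ U).card : ℝ) := rfl

theorem E_add (N : Bool → V → Finset V) (as : List Bool) : ∀ (U : Finset V) (v : V)
    (g h : Finset V → ℝ), E N as U v (fun W => g W + h W) = E N as U v g + E N as U v h := by
  induction as with
  | nil => intro U v g h; rfl
  | cons a as ih =>
    intro U v g h
    rw [E_cons, E_cons, E_cons, ← add_div, ← sum_add_distrib]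
    congr 1
    exact sum_congr rfl fun w _ => ih _ _ _ _

theorem E_mul (N : Bool → V → Finset V) (as : List Bool) (c : ℝ) : ∀ (U : Finset V) (v : V)
    (g : Finset V → ℝ), E N as U v (fun W => c * g W) = c * E N as U v g := by
  induction as with
  | nil => intro U v g; rfl
  | cons a as ih =>
    intro U v g
    rw [E_cons, E_cons, ← mul_div_assoc, mul_sum]
    congr 1
    exact sum_congr rfl fun w _ => ih _ _ _

theorem E_sum (N : Bool → V → Finset V) (as : List Bool) (U : Finset V) (v : V) {ι : Type}
    (s : Finset ι) (g : ι → Finset V → ℝ) :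
    E N as U v (fun W => ∑ i ∈ s, g i W) = ∑ i ∈ s, E N as U v (g i) := by
  classical
  induction s using Finset.induction_on with
  | empty =>
    have h := E_mul N as 0 U v (fun _ => 0)
    simp only [zero_mul] at h
    simpa using h
  | insert a s ha ih =>
    have h := E_add N as U v (g a) (fun W => ∑ i ∈ s, g i W)
    rw [sum_insert ha, ← ih, ← h]
    congr 1
    funext W
    exact sum_insert ha

theorem E_le (N : Bool → V → Finset V) (as : List Bool) {M : ℝ} (hM : 0 ≤ M)
    (g : Finset V → ℝ) : ∀ (U : Finset V) (v : V), (∀ W, U ⊆ W → g W ≤ M) →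
      E N as U v g ≤ M := by
  induction as with
  | nil => intro U v h; exact h U (Subset.refl _)
  | cons a as ih =>
    intro U v h
    rw [E_cons]
    refine div_le_of_le_mul₀ (by positivity) hM ?_
    have h1 : ∀ w ∈ N a v \ U, E N as (insert w U) w g ≤ M := fun w _ =>
      ih _ _ fun W hW => h W ((subset_insert w U).trans hW)
    refine (sum_le_sum h1).trans ?_
    rw [sum_const, nsmul_eq_mul, mul_comm]

/-- hypotheses on the graph -/
structure Gr (N : Bool → V → Finset V) (d : ℕ) : Prop where
  sym : ∀ b v w, w ∈ N b v → v ∈ N (!b) w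
  asy : ∀ b v w, w ∈ N b v → v ∉ N b w
  deg : ∀ b v, d ≤ (N b v).card

omit [DecidableEq V] in
theorem Gr.irr {N : Bool → V → Finset V} {d : ℕ} (h : Gr N d) (b : Bool) (v : V) :
    v ∉ N b v := fun h1 => h.asy b v v h1 h1

theorem Gr.opt {N : Bool → V → Finset V} {d : ℕ} (h : Gr N d) (b : Bool) {v : V} {U : Finset V}
    (hv : v ∈ U) : d + 1 ≤ (N b v \ U).card + U.card := by
  have h1 : (N b v ∩ U).card + 1 ≤ U.card := by
    have h2 : N b v ∩ U ⊆ U.erase v := by
      intro x hx
      rw [mem_inter] at hx
      rw [mem_erase]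
      refine ⟨?_, hx.2⟩
      rintro rfl
      exact h.irr b x hx.1
    have h3 := card_le_card h2
    have h4 := card_erase_add_one hv
    omega
  have h5 := card_sdiff_add_card_inter (N b v) U
  have h6 := h.deg b v
  omega

theorem E_exists {N : Bool → V → Finset V} {d : ℕ} (h : Gr N d) (as : List Bool)
    (g : Finset V → ℝ) (c : ℝ) : ∀ (U : Finset V) (v : V), v ∈ U → U.card + as.length ≤ d + 1 →
      E N as U v g < c → ∃ W, Ok N as U v W ∧ g W < c := by
  induction as with
  | nil => intro U v _ _ hE; exact ⟨U, rfl, hE⟩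
  | cons a as ih =>
    intro U v hv hc hE
    rw [List.length_cons] at hc
    have h1 := h.opt a hv
    have h2 : 0 < (N a v \ U).card := by omega
    have h3 : ∃ w ∈ N a v \ U, E N as (insert w U) w g < c := by
      by_contra hno
      push Not at hno
      have h4 := sum_le_sum hno
      rw [sum_const, nsmul_eq_mul] at h4
      rw [E_cons, div_lt_iff₀ (by exact_mod_cast h2)] at hE
      linarith
    obtain ⟨w, hw, hw2⟩ := h3
    rw [mem_sdiff] at hw
    have h5 := card_insert_of_notMem hw.2
    obtain ⟨W, hW, hg⟩ := ih (insert w U) w (mem_insert_self _ _) (by omega) hw2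
    exact ⟨W, ⟨w, hw.1, hw.2, hW⟩, hg⟩

/-- the expected penalty of the free walk to the right -/
def H (N : Bool → V → Finset V) (C : ℝ) (bd : Bool → V → ℝ) : List Bool → V → ℝ
  | [], _ => 0
  | b :: bs, v => bd b v + C * ((∑ w ∈ N b v, H N C bd bs w) / ((N b v).card : ℝ))

omit [DecidableEq V] in
theorem H_cons (N : Bool → V → Finset V) (C : ℝ) (bd : Bool → V → ℝ) (b : Bool) (bs : List Bool)
    (v : V) : H N C bd (b :: bs) v =
      bd b v + C * ((∑ w ∈ N b v, H N C bd bs w) / ((N b v).card : ℝ)) := rfl

theorem H_nonneg (N : Bool → V → Finset V) {C : ℝ} (hC : 0 ≤ C) {bd : Bool → V → ℝ}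
    (hb : ∀ b v, 0 ≤ bd b v) (bs : List Bool) : ∀ v, 0 ≤ H N C bd bs v := by
  induction bs with
  | nil => intro v; exact le_rfl
  | cons b bs ih =>
    intro v
    rw [H_cons]
    have h1 : 0 ≤ ∑ w ∈ N b v, H N C bd bs w := sum_nonneg fun w _ => ih w
    have := hb b v
    positivity

/-- the path to the right -/
theorem right {N : Bool → V → Finset V} {C : ℝ} (hC : 0 < C) {bd : Bool → V → ℝ}
    (hb : ∀ b v, 0 ≤ bd b v) (k : ℕ) (hpos : ∀ b v, 0 < (N b v).card) (bs : List Bool) :
    ∀ (U : Finset V) (v : V),
      (∀ b v U', U ⊆ U' → U'.card ≤ k → bd b v < 1 →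
        ((N b v).card : ℝ) ≤ C * ((N b v \ U').card : ℝ)) →
      U.card + bs.length ≤ k + 1 → H N C bd bs v < 1 → ∃ W, Ok N bs U v W := by
  induction bs with
  | nil => intro U v _ _ _; exact ⟨U, rfl⟩
  | cons b bs ih =>
    intro U v hU hc hH
    rw [List.length_cons] at hc
    rw [H_cons] at hH
    have h0 : 0 ≤ ∑ w ∈ N b v, H N C bd bs w := sum_nonneg fun w _ => H_nonneg N hC.le hb bs w
    have hp : (0 : ℝ) < ((N b v).card : ℝ) := by exact_mod_cast hpos b v
    have h1 : 0 ≤ C * ((∑ w ∈ N b v, H N C bd bs w) / ((N b v).card : ℝ)) := by positivity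
    have h2 : bd b v < 1 := by linarith
    have h3 : C * ((∑ w ∈ N b v, H N C bd bs w) / ((N b v).card : ℝ)) < 1 := by
      have := hb b v
      linarith
    have h4 := hU b v U (Subset.refl _) (by omega) h2
    have h5 : ∃ w ∈ N b v \ U, H N C bd bs w < 1 := by
      by_contra hno
      push Not at hno
      have h6 := sum_le_sum hno
      rw [sum_const, nsmul_eq_mul, mul_one] at h6
      have h7 : ∑ w ∈ N b v \ U, H N C bd bs w ≤ ∑ w ∈ N b v, H N C bd bs w :=
        sum_le_sum_of_subset_of_nonneg sdiff_subset fun w _ _ => H_nonneg N hC.le hb bs w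
      rw [← mul_div_assoc, div_lt_one hp] at h3
      have h8 : C * ((N b v \ U).card : ℝ) ≤ C * ∑ w ∈ N b v, H N C bd bs w :=
        mul_le_mul_of_nonneg_left (h6.trans h7) hC.le
      linarith
    obtain ⟨w, hw, hw2⟩ := h5
    rw [mem_sdiff] at hw
    have h6 := card_insert_of_notMem hw.2
    obtain ⟨W, hW⟩ := ih (insert w U) w
      (fun b v U' h => hU b v U' ((subset_insert w U).trans h)) (by omega) hw2
    exact ⟨W, w, hw.1, hw.2, hW⟩

/-- average penalty -/
theorem E_H {N : Bool → V → Finset V} {C : ℝ} (hC : 0 ≤ C) {bd : Finset V → Bool → V → ℝ}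
    {as : List Bool} {U : Finset V} {m : V} {q : ℝ} (hq0 : 0 ≤ q)
    (hq : ∀ b v, E N as U m (fun W => bd W b v) ≤ q) (bs : List Bool) :
    ∀ v, E N as U m (fun W => H N C (bd W) bs v) ≤ q * ∑ j ∈ range bs.length, C ^ j := by
  induction bs with
  | nil =>
    intro v
    rw [List.length_nil, sum_range_zero, mul_zero]
    exact E_le N as le_rfl _ U m fun W _ => le_rfl
  | cons b bs ih =>
    intro v
    have e1 : E N as U m (fun W => H N C (bd W) (b :: bs) v) =
        E N as U m (fun W => bd W b v) +
          C * (((N b v).card : ℝ)⁻¹ * ∑ w ∈ N b v, E N as U m (fun W => H N C (bd W) bs w)) := by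
      rw [← E_sum, ← E_mul, ← E_mul, ← E_add]
      congr 1
      funext W
      rw [H_cons, div_eq_inv_mul]
    rw [e1, List.length_cons, sum_range_succ', pow_zero, mul_add, mul_one, add_comm]
    refine add_le_add ?_ (hq b v)
    have h1 : ∑ w ∈ N b v, E N as U m (fun W => H N C (bd W) bs w) ≤
        ((N b v).card : ℝ) * (q * ∑ j ∈ range bs.length, C ^ j) := by
      refine (sum_le_sum fun w _ => ih w).trans ?_
      rw [sum_const, nsmul_eq_mul]
    have hs : 0 ≤ ∑ j ∈ range bs.length, C ^ j := sum_nonneg fun j _ => pow_nonneg hC j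
    have h2 : ((N b v).card : ℝ)⁻¹ * ∑ w ∈ N b v, E N as U m (fun W => H N C (bd W) bs w) ≤
        q * ∑ j ∈ range bs.length, C ^ j := by
      rw [← div_eq_inv_mul]
      refine div_le_of_le_mul₀ (by positivity) (by positivity) ?_
      rw [mul_comm]
      exact h1
    refine (mul_le_mul_of_nonneg_left h2 hC).trans (le_of_eq ?_)
    rw [← mul_assoc, mul_comm C q, mul_assoc, mul_sum]
    congr 1
    exact sum_congr rfl fun j _ => by rw [pow_succ, mul_comm]

/-- arcs inside a set -/
theorem arcs {N : Bool → V → Finset V} {d : ℕ} (h : Gr N d) (b : Bool) (B : Finset V) :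
    2 * ∑ w ∈ B, ((N b w ∩ B).card : ℝ) ≤ (B.card : ℝ) ^ 2 := by
  have e1 : ∀ w, ((N b w ∩ B).card : ℝ) = ∑ x ∈ B, if x ∈ N b w then (1 : ℝ) else 0 := by
    intro w
    rw [sum_boole, inter_comm, ← filter_mem_eq_inter]
  have e2 : ∑ w ∈ B, ((N b w ∩ B).card : ℝ) = ∑ w ∈ B, ∑ x ∈ B, if x ∈ N b w then (1 : ℝ) else 0 :=
    sum_congr rfl fun w _ => e1 w
  have e3 : ∑ w ∈ B, ∑ x ∈ B, (if x ∈ N b w then (1 : ℝ) else 0) =
      ∑ w ∈ B, ∑ x ∈ B, if w ∈ N b x then (1 : ℝ) else 0 := sum_comm
  have e4 : 2 * ∑ w ∈ B, ((N b w ∩ B).card : ℝ) =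
      ∑ w ∈ B, ∑ x ∈ B, ((if x ∈ N b w then (1 : ℝ) else 0) + if w ∈ N b x then (1 : ℝ) else 0) := by
    rw [two_mul]
    nth_rewrite 2 [e2]
    rw [e3, e2, ← sum_add_distrib]
    exact sum_congr rfl fun w _ => sum_add_distrib.symm
  rw [e4]
  have h1 : ∀ w ∈ B, ∑ x ∈ B, ((if x ∈ N b w then (1 : ℝ) else 0) +
      if w ∈ N b x then (1 : ℝ) else 0) ≤ (B.card : ℝ) := by
    intro w _
    refine (sum_le_sum (g := fun _ => (1 : ℝ)) fun x _ => ?_).trans ?_
    · by_cases hx : x ∈ N b w
      · rw [if_pos hx, if_neg (h.asy b w x hx)]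
        norm_num
      · rw [if_neg hx]
        split_ifs <;> norm_num
    · rw [sum_const, nsmul_eq_mul, mul_one]
  refine (sum_le_sum h1).trans ?_
  rw [sum_const, nsmul_eq_mul, sq]

/-- rate of the two step estimate -/
def lam : ℝ := 1 / 8 + 7 / 8 * (1089 / 1682)

theorem lam_pos : 0 < lam := by unfold lam; norm_num

/-- THE RANDOM PATH LEAVES EVERY SMALL SET -/
theorem stay {N : Bool → V → Finset V} {k e d : ℕ} (hd : d + e = k)
    (hk : 100 * e ≤ k) (h : Gr N d) (O : Finset V) (hO : O.card ≤ k + e) :
    ∀ (n : ℕ) (as : List Bool) (U : Finset V) (v : V), 2 * n ≤ as.length → v ∈ U →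
      U.card + 2 * n ≤ 70 * e + 1 →
      E N as U v (fun W => if (W \ O).card < 2 * e then 1 else 0) ≤
        8 ^ (2 * e) * (1 / 8) ^ (U \ O).card * lam ^ n := by
  have hmono : ∀ {U W : Finset V}, U ⊆ W → (U \ O).card ≤ (W \ O).card := fun h =>
    card_le_card (sdiff_subset_sdiff h (Subset.refl _))
  have hzero : ∀ (as : List Bool) (U : Finset V) (v : V), 2 * e ≤ (U \ O).card →
      E N as U v (fun W => if (W \ O).card < 2 * e then 1 else 0) ≤ 0 := by
    intro as U v hU
    refine E_le N as le_rfl _ U v fun W hW => ?_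
    have h1 := hmono hW
    rw [if_neg (by omega)]
  intro n
  induction n with
  | zero =>
    intro as U v _ _ _
    rw [pow_zero, mul_one]
    by_cases hc : 2 * e ≤ (U \ O).card
    · exact (hzero as U v hc).trans (by positivity)
    · push Not at hc
      have h1 : (1 : ℝ) ≤ 8 ^ (2 * e) * (1 / 8) ^ (U \ O).card := by
        rw [one_div, inv_pow, ← div_eq_mul_inv, one_le_div (by positivity)]
        exact pow_le_pow_right₀ (by norm_num) hc.le
      refine E_le N as (by positivity) _ U v fun W _ => ?_
      split_ifs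
      · exact h1
      · positivity
  | succ n ih =>
    intro as U v hl hv hU
    have hlp := lam_pos
    by_cases hc : 2 * e ≤ (U \ O).card
    · exact (hzero as U v hc).trans (by positivity)
    push Not at hc
    match as, hl with
    | [], hl => exact absurd hl (by rw [List.length_nil]; omega)
    | [a], hl => exact absurd hl (by rw [List.length_singleton]; omega)
    | a :: b :: as, hl =>
    rw [List.length_cons, List.length_cons] at hl
    set g : Finset V → ℝ := fun W => if (W \ O).card < 2 * e then 1 else 0 with hg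
    set c := (U \ O).card with hcdef
    set M : ℝ := 8 ^ (2 * e) * (1 / 8) ^ c * lam ^ n with hM
    have hM0 : 0 ≤ M := by positivity
    -- the third vertex
    have hthird : ∀ w w', w ∉ U → w' ∉ insert w U → ∀ c', c' ≤ (insert w' (insert w U) \ O).card →
        E N as (insert w' (insert w U)) w' g ≤ 8 ^ (2 * e) * (1 / 8) ^ c' * lam ^ n := by
      intro w w' hw hw' c' hc'
      have h1 := card_insert_of_notMem hw
      have h2 := card_insert_of_notMem hw'
      refine (ih as (insert w' (insert w U)) w' (by omega) (mem_insert_self _ _) (by omega)).trans ?_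
      have h3 : ((1 : ℝ) / 8) ^ (insert w' (insert w U) \ O).card ≤ (1 / 8) ^ c' :=
        pow_le_pow_of_le_one (by norm_num) (by norm_num) hc'
      gcongr
    have hsub : ∀ w w', U ⊆ insert w' (insert w U) := fun w w' =>
      (subset_insert _ _).trans (subset_insert _ _)
    have hM8 : 8 ^ (2 * e) * (1 / 8) ^ (c + 1) * lam ^ n = M * (1 / 8) := by
      rw [hM, pow_succ]; ring
    set D : ℝ := (d : ℝ) - U.card with hD
    have hDpos : 0 < D := by
      have h1 : U.card < d := by omega
      have h2 : (U.card : ℝ) < d := by exact_mod_cast h1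
      linarith
    -- the second step
    have hsec : ∀ w ∈ N a v \ U, E N (b :: as) (insert w U) w g ≤
        M * (1 / 8) + M * (7 / 8) * ((if w ∈ O then ((N b w ∩ (O \ U)).card : ℝ) else 0) / D) := by
      intro w hw
      rw [mem_sdiff] at hw
      rw [E_cons]
      by_cases hwO : w ∈ O
      · rw [if_pos hwO]
        have h1 : ∀ w' ∈ N b w \ insert w U, E N as (insert w' (insert w U)) w' g ≤
            M * (1 / 8) + if w' ∈ O then M * (7 / 8) else 0 := by
          intro w' hw'
          rw [mem_sdiff] at hw'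
          by_cases hO' : w' ∈ O
          · rw [if_pos hO']
            refine (hthird w w' hw.2 hw'.2 c (hmono (hsub w w'))).trans (le_of_eq ?_)
            rw [hM]; ring
          · rw [if_neg hO', add_zero, ← hM8]
            refine hthird w w' hw.2 hw'.2 (c + 1) ?_
            have h2 : insert w' (U \ O) ⊆ insert w' (insert w U) \ O := by
              intro x hx
              rw [mem_insert, mem_sdiff] at hx
              rw [mem_sdiff, mem_insert, mem_insert]
              rcases hx with rfl | hx
              · exact ⟨Or.inl rfl, hO'⟩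
              · exact ⟨Or.inr (Or.inr hx.1), hx.2⟩
            have h3 := card_le_card h2
            rw [card_insert_of_notMem (fun hx => hw'.2 (mem_insert_of_mem (mem_sdiff.1 hx).1))] at h3
            exact h3
        have h2 : (d : ℝ) - U.card ≤ ((N b w \ insert w U).card : ℝ) := by
          have h3 := h.opt b (mem_insert_self w U)
          rw [card_insert_of_notMem hw.2] at h3
          have h4 : (d : ℝ) + 1 ≤ ((N b w \ insert w U).card : ℝ) + (U.card + 1) := by
            exact_mod_cast h3
          linarith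
        have hpos : (0 : ℝ) < ((N b w \ insert w U).card : ℝ) := lt_of_lt_of_le hDpos h2
        have h5 : ∑ w' ∈ N b w \ insert w U, (if w' ∈ O then M * (7 / 8) else 0) ≤
            M * (7 / 8) * ((N b w ∩ (O \ U)).card : ℝ) := by
          rw [← sum_filter, sum_const, nsmul_eq_mul, mul_comm]
          refine mul_le_mul_of_nonneg_left ?_ (by positivity)
          have h6 : (N b w \ insert w U).filter (fun w' => w' ∈ O) ⊆ N b w ∩ (O \ U) := by
            intro x hx
            rw [mem_filter, mem_sdiff] at hx
            rw [mem_inter, mem_sdiff]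
            exact ⟨hx.1.1, hx.2, fun h => hx.1.2 (mem_insert_of_mem h)⟩
          exact_mod_cast card_le_card h6
        rw [div_le_iff₀ hpos]
        refine (sum_le_sum h1).trans ?_
        rw [sum_add_distrib, sum_const, nsmul_eq_mul, add_mul]
        refine add_le_add (le_of_eq (mul_comm _ _)) (h5.trans ?_)
        rw [mul_assoc (M * (7 / 8))]
        refine mul_le_mul_of_nonneg_left ?_ (by positivity)
        rw [div_mul_eq_mul_div, le_div_iff₀ hDpos]
        exact mul_le_mul_of_nonneg_left h2 (by positivity)
      · rw [if_neg hwO, zero_div, mul_zero, add_zero]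
        refine div_le_of_le_mul₀ (by positivity) (by positivity) ?_
        have h1 : ∀ w' ∈ N b w \ insert w U, E N as (insert w' (insert w U)) w' g ≤
            M * (1 / 8) := by
          intro w' hw'
          rw [mem_sdiff] at hw'
          rw [← hM8]
          refine hthird w w' hw.2 hw'.2 (c + 1) ?_
          have h2 : insert w (U \ O) ⊆ insert w' (insert w U) \ O := by
            intro x hx
            rw [mem_insert, mem_sdiff] at hx
            rw [mem_sdiff, mem_insert, mem_insert]
            rcases hx with rfl | hx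
            · exact ⟨Or.inr (Or.inl rfl), hwO⟩
            · exact ⟨Or.inr (Or.inr hx.1), hx.2⟩
          have h3 := card_le_card h2
          rw [card_insert_of_notMem (fun hx => hw.2 (mem_sdiff.1 hx).1)] at h3
          exact h3
        refine (sum_le_sum h1).trans ?_
        rw [sum_const, nsmul_eq_mul, mul_comm]
    -- the first step
    have hopt : D ≤ ((N a v \ U).card : ℝ) := by
      have h3 := h.opt a hv
      have h4 : (d : ℝ) + 1 ≤ ((N a v \ U).card : ℝ) + U.card := by exact_mod_cast h3
      linarith
    have hpos : (0 : ℝ) < ((N a v \ U).card : ℝ) := lt_of_lt_of_le hDpos hopt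
    rw [E_cons, div_le_iff₀ hpos]
    refine (sum_le_sum hsec).trans ?_
    rw [sum_add_distrib, sum_const, nsmul_eq_mul, ← mul_sum, ← sum_div, ← sum_filter]
    have h1 : ∑ w ∈ (N a v \ U).filter (fun w => w ∈ O), ((N b w ∩ (O \ U)).card : ℝ) ≤
        ∑ w ∈ O \ U, ((N b w ∩ (O \ U)).card : ℝ) := by
      refine sum_le_sum_of_subset_of_nonneg ?_ fun _ _ _ => by positivity
      intro x hx
      rw [mem_filter, mem_sdiff] at hx
      rw [mem_sdiff]
      exact ⟨hx.2, hx.1.2⟩
    have h2 := arcs h b (O \ U)
    -- size of O \ U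
    have h3 : ((O \ U).card : ℝ) ≤ (k : ℝ) - U.card + 3 * e := by
      have h4 := card_sdiff_add_card_inter O U
      have h5 := card_sdiff_add_card_inter U O
      rw [inter_comm] at h5
      have h6 : (O \ U).card + U.card ≤ k + 3 * e := by omega
      have h7 : ((O \ U).card : ℝ) + U.card ≤ k + 3 * e := by exact_mod_cast h6
      linarith
    have hz : (30 : ℝ) * e ≤ (k : ℝ) - U.card := by
      have h4 : 30 * e + U.card ≤ k := by omega
      have h5 : (30 : ℝ) * e + U.card ≤ k := by exact_mod_cast h4
      linarith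
    have hDz : D = (k : ℝ) - U.card - e := by
      have h4 : (d : ℝ) + e = k := by exact_mod_cast hd
      rw [hD]; linarith
    have h4 : ((O \ U).card : ℝ) ≤ 33 / 29 * D := by
      rw [hDz]
      linarith
    have h5 : ((O \ U).card : ℝ) ^ 2 ≤ (33 / 29 * D) ^ 2 :=
      pow_le_pow_left₀ (by positivity) h4 2
    have h6 : (∑ w ∈ (N a v \ U).filter (fun w => w ∈ O), ((N b w ∩ (O \ U)).card : ℝ)) / D ≤
        1089 / 1682 * D := by
      rw [div_le_iff₀ hDpos]
      nlinarith [h1, h2, h5]
    have h7 : (∑ w ∈ (N a v \ U).filter (fun w => w ∈ O), ((N b w ∩ (O \ U)).card : ℝ)) / D ≤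
        1089 / 1682 * ((N a v \ U).card : ℝ) :=
      h6.trans (mul_le_mul_of_nonneg_left hopt (by norm_num))
    have h8 := mul_le_mul_of_nonneg_left h7 (show 0 ≤ M * (7 / 8) by positivity)
    have h9 : 8 ^ (2 * e) * (1 / 8) ^ c * lam ^ (n + 1) = M * lam := by
      rw [hM, pow_succ]; ring
    rw [h9]
    unfold lam
    linarith

end Pool.Agent.Helper78.OP
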