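import Pool.Agent.Helper78.OP.Core

/-!
MP_f8e2d3: oriented paths in oriented graphs of minimum semidegree at least 99k/100, assembly.
-/

set_option autoImplicit false

noncomputable section
namespace Pool.Agent.Helper78.OP

open Finset

variable {V : Type} [DecidableEq V]

/-- the path as a function -/
theorem Ok_path {N : Bool → V → Finset V} (as : List Bool) : ∀ (U : Finset V) (v : V)
    (W : Finset V), Ok N as U v W → v ∈ U → ∃ g : ℕ → V, g 0 = v ∧
      (∀ i (hi : i < as.length), g (i + 1) ∈ N (as[i]) (g i)) ∧
      (∀ i, 1 ≤ i → i ≤ as.length → g i ∉ U) ∧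
      (∀ i ≤ as.length, ∀ j ≤ as.length, g i = g j → i = j) ∧
      W.card = U.card + as.length ∧ U ⊆ W ∧ ∀ i ≤ as.length, g i ∈ W := by
  induction as with
  | nil =>
    intro U v W h hv
    have hW : W = U := h
    subst hW
    refine ⟨fun _ => v, rfl, fun i hi => absurd hi (Nat.not_lt_zero _), fun i h1 h2 => ?_,
      fun i hi j hj _ => ?_, rfl, Subset.refl _, fun _ _ => hv⟩
    · rw [List.length_nil] at h2
      omega
    · rw [List.length_nil] at hi hj
      omega
  | cons a as ih =>
    intro U v W h hv
    obtain ⟨w, hw, hwU, hW⟩ := h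
    obtain ⟨g, g0, g1, g2, g3, g4, g5, g6⟩ := ih (insert w U) w W hW (mem_insert_self _ _)
    have hU : ∀ i ≤ as.length, g i ∉ U := by
      intro i hi
      rcases Nat.eq_zero_or_pos i with rfl | h1
      · rw [g0]; exact hwU
      · exact fun h2 => g2 i h1 hi (mem_insert_of_mem h2)
    refine ⟨fun i => if i = 0 then v else g (i - 1), if_pos rfl, ?_, ?_, ?_, ?_, ?_, ?_⟩
    · intro i hi
      beta_reduce
      rw [if_neg (Nat.succ_ne_zero i), Nat.add_sub_cancel]
      rcases i with _ | i
      · rw [if_pos rfl, g0]
        exact hw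
      · rw [if_neg (Nat.succ_ne_zero i), Nat.add_sub_cancel, List.getElem_cons_succ]
        exact g1 i (by rw [List.length_cons] at hi; omega)
    · intro i h1 h2
      rw [List.length_cons] at h2
      beta_reduce
      rw [if_neg (by omega)]
      exact hU _ (by omega)
    · intro i hi j hj hij
      beta_reduce at hij
      rw [List.length_cons] at hi hj
      by_cases h1 : i = 0
      · by_cases h2 : j = 0
        · rw [h1, h2]
        · rw [if_pos h1, if_neg h2] at hij
          exact absurd (hij ▸ hv) (hU _ (by omega))
      · by_cases h2 : j = 0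
        · rw [if_neg h1, if_pos h2] at hij
          exact absurd (hij ▸ hv) (hU _ (by omega))
        · rw [if_neg h1, if_neg h2] at hij
          have := g3 _ (by omega) _ (by omega) hij
          omega
    · rw [g4, card_insert_of_notMem hwU, List.length_cons]
      omega
    · exact (subset_insert _ _).trans g5
    · intro i hi
      beta_reduce
      rw [List.length_cons] at hi
      by_cases h1 : i = 0
      · rw [if_pos h1]
        exact g5 (mem_insert_of_mem hv)
      · rw [if_neg h1]
        exact g6 _ (by omega)

/-- gluing a path to the left and a path to the right -/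
theorem glue {N : Bool → V → Finset V} {d : ℕ} (h : Gr N d) (P : ℕ → Bool) (l r : ℕ) (m : V)
    {W W' : Finset V}
    (hl : Ok N ((List.range l).map fun i => !P (l - 1 - i)) {m} m W)
    (hr : Ok N ((List.range r).map fun j => P (l + j)) W m W') :
    ∃ f : ℕ → V, (∀ i ≤ l + r, ∀ j ≤ l + r, f i = f j → i = j) ∧
      ∀ i < l + r, f (i + 1) ∈ N (P i) (f i) := by
  obtain ⟨g, g0, g1, g2, g3, g4, g5, g6⟩ := Ok_path _ _ _ _ hl (mem_singleton_self m)
  have hm : m ∈ W := g5 (mem_singleton_self m)
  obtain ⟨p, p0, p1, p2, p3, p4, p5, p6⟩ := Ok_path _ _ _ _ hr hm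
  rw [List.length_map, List.length_range] at g2 g3 g4 g6 p2 p3 p4 p6
  have g1' : ∀ i < l, g (i + 1) ∈ N (!P (l - 1 - i)) (g i) := by
    intro i hi
    have h1 := g1 i (by rw [List.length_map, List.length_range]; exact hi)
    rw [List.getElem_map, List.getElem_range] at h1
    exact h1
  have p1' : ∀ i < r, p (i + 1) ∈ N (P (l + i)) (p i) := by
    intro i hi
    have h1 := p1 i (by rw [List.length_map, List.length_range]; exact hi)
    rw [List.getElem_map, List.getElem_range] at h1
    exact h1
  refine ⟨fun i => if i ≤ l then g (l - i) else p (i - l), ?_, ?_⟩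
  · intro i hi j hj hij
    beta_reduce at hij
    by_cases h1 : i ≤ l
    · by_cases h2 : j ≤ l
      · rw [if_pos h1, if_pos h2] at hij
        have := g3 _ (by omega) _ (by omega) hij
        omega
      · rw [if_pos h1, if_neg h2] at hij
        exact absurd (hij ▸ g6 (l - i) (by omega)) (p2 _ (by omega) (by omega))
    · by_cases h2 : j ≤ l
      · rw [if_neg h1, if_pos h2] at hij
        exact absurd (hij ▸ g6 (l - j) (by omega)) (p2 _ (by omega) (by omega))
      · rw [if_neg h1, if_neg h2] at hij
        have := p3 _ (by omega) _ (by omega) hij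
        omega
  · intro i hi
    beta_reduce
    by_cases h1 : i + 1 ≤ l
    · rw [if_pos h1, if_pos (by omega)]
      have h2 := g1' (l - (i + 1)) (by omega)
      have e1 : l - (i + 1) + 1 = l - i := by omega
      have e2 : l - 1 - (l - (i + 1)) = i := by omega
      rw [e1, e2] at h2
      have h3 := h.sym _ _ _ h2
      rw [Bool.not_not] at h3
      exact h3
    · rw [if_neg h1]
      have h2 := p1' (i - l) (by omega)
      have e1 : i - l + 1 = i + 1 - l := by omega
      have e2 : l + (i - l) = i := by omega
      rw [e1, e2] at h2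
      by_cases h3 : i ≤ l
      · have h4 : i = l := by omega
        rw [if_pos h3, h4, Nat.sub_self, g0]
        rw [h4, Nat.sub_self, p0] at h2
        exact h2
      · rw [if_neg h3]
        exact h2

theorem numb : (64 : ℝ) * lam ^ 35 * 201 < 1 := by
  unfold lam
  norm_num

/-- THE MAIN THEOREM -/
theorem main [Nonempty V] {N : Bool → V → Finset V} {k e d : ℕ} (hd : d + e = k)
    (hk : 100 * e ≤ k) (hk2 : k ≤ 100 * e + 99) (h : Gr N d) (P : ℕ → Bool) :
    ∃ f : ℕ → V, (∀ i ≤ k, ∀ j ≤ k, f i = f j → i = j) ∧
      ∀ i < k, f (i + 1) ∈ N (P i) (f i) := by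
  obtain ⟨m⟩ := ‹Nonempty V›
  have h0 : ∃ W, Ok N ((List.range d).map fun i => !P (d - 1 - i)) {m} m W ∧
      ∃ W', Ok N ((List.range e).map fun j => P (d + j)) W m W' := by
    set as := (List.range d).map fun i => !P (d - 1 - i) with has
    set bs := (List.range e).map fun j => P (d + j) with hbs
    have hal : as.length = d := by rw [has, List.length_map, List.length_range]
    have hbl : bs.length = e := by rw [hbs, List.length_map, List.length_range]
    rcases Nat.eq_zero_or_pos e with rfl | he
    · obtain ⟨W, hW, _⟩ := E_exists h as (fun _ => 0) 1 {m} m (mem_singleton_self m)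
        (by rw [card_singleton, hal]; omega)
        (lt_of_le_of_lt (E_le N as le_rfl _ _ _ fun _ _ => le_rfl) one_pos)
      refine ⟨W, hW, W, ?_⟩
      have : bs = [] := by rw [hbs]; rfl
      rw [this]
      rfl
    set bd : Finset V → Bool → V → ℝ := fun W b v =>
      if (N b v).card ≤ k + e ∧ (W \ N b v).card < 2 * e then 1 else 0 with hbd
    have hlp := lam_pos
    set q : ℝ := 64 ^ e * lam ^ (35 * e) with hq
    have hq0 : 0 ≤ q := by positivity
    have h1 : ∀ b v, E N as {m} m (fun W => bd W b v) ≤ q := by
      intro b v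
      by_cases hb : (N b v).card ≤ k + e
      · have h2 := stay hd hk h (N b v) hb (35 * e) as {m} m (by rw [hal]; omega)
          (mem_singleton_self m) (by rw [card_singleton]; omega)
        have e1 : (fun W => bd W b v) = fun W : Finset V =>
            if (W \ N b v).card < 2 * e then (1 : ℝ) else 0 := by
          funext W
          rw [hbd]
          simp only [hb, true_and]
        rw [e1]
        refine h2.trans ?_
        have h3 : ((1 : ℝ) / 8) ^ (({m} : Finset V) \ N b v).card ≤ 1 :=
          pow_le_one₀ (by norm_num) (by norm_num)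
        have e2 : (8 : ℝ) ^ (2 * e) = 64 ^ e := by
          rw [pow_mul]; norm_num
        rw [hq, e2]
        have h4 : (64 : ℝ) ^ e * (1 / 8) ^ (({m} : Finset V) \ N b v).card ≤ 64 ^ e :=
          mul_le_of_le_one_right (by positivity) h3
        exact mul_le_mul_of_nonneg_right h4 (by positivity)
      · refine (E_le N as le_rfl _ _ _ fun W _ => ?_).trans hq0
        rw [hbd]
        simp only [hb, false_and, if_false]
        exact le_rfl
    have h2 := E_H (C := 201) (by norm_num) hq0 h1 bs m
    have h3 : q * ∑ j ∈ range bs.length, (201 : ℝ) ^ j < 1 := by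
      rw [hbl]
      have h4 : ∀ n : ℕ, ∑ j ∈ range n, (201 : ℝ) ^ j ≤ 201 ^ n := by
        intro n
        induction n with
        | zero => simp
        | succ n ih =>
          rw [sum_range_succ, pow_succ]
          have : (0 : ℝ) ≤ 201 ^ n := by positivity
          linarith
      have h5 : q * ∑ j ∈ range e, (201 : ℝ) ^ j ≤ (64 * lam ^ 35 * 201) ^ e := by
        refine (mul_le_mul_of_nonneg_left (h4 e) hq0).trans (le_of_eq ?_)
        rw [hq, pow_mul, mul_pow, mul_pow]
      exact lt_of_le_of_lt h5 (pow_lt_one₀ (by positivity) numb (by omega))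
    obtain ⟨W, hW, hH⟩ := E_exists h as (fun W => H N 201 (bd W) bs m) 1 {m} m
      (mem_singleton_self m) (by rw [card_singleton, hal]; omega) (lt_of_le_of_lt h2 h3)
    refine ⟨W, hW, ?_⟩
    obtain ⟨g, g0, g1, g2, g3, g4, g5, g6⟩ := Ok_path _ _ _ _ hW (mem_singleton_self m)
    rw [card_singleton, hal] at g4
    have hpos : ∀ b v, 0 < (N b v).card := fun b v => lt_of_lt_of_le (by omega) (h.deg b v)
    refine right (C := 201) (by norm_num) (bd := bd W) (fun b v => ?_) k hpos bs W m ?_
      (by rw [hbl]; omega) hH
    · rw [hbd]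
      simp only
      split_ifs <;> norm_num
    · intro b v U' hU' hc hbv
      rw [hbd] at hbv
      simp only at hbv
      have h4 : ¬ ((N b v).card ≤ k + e ∧ (W \ N b v).card < 2 * e) := by
        intro h5
        rw [if_pos h5] at hbv
        exact lt_irrefl _ hbv
      have h6 := card_sdiff_add_card_inter (N b v) U'
      have h7 := card_sdiff_add_card_inter U' (N b v)
      rw [inter_comm] at h7
      have h8 : (W \ N b v).card ≤ (U' \ N b v).card :=
        card_le_card (sdiff_subset_sdiff hU' (Subset.refl _))
      have h9 := h.deg b v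
      have h10 : (N b v).card ≤ 201 * (N b v \ U').card := by
        by_cases h11 : (N b v).card ≤ k + e
        · have h12 : ¬ (W \ N b v).card < 2 * e := fun h13 => h4 ⟨h11, h13⟩
          omega
        · omega
      exact_mod_cast h10
  obtain ⟨W, hW, W', hW'⟩ := h0
  have h1 := glue h P d e m hW hW'
  rw [hd] at h1
  exact h1

end Pool.Agent.Helper78.OP
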